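import Pool.Agent.Helper774.KSing.Main

/-!
# MP_f277c5_ag: the alpha invariants of K-semistable klt Fano varieties do not satisfy the DCC

Let `m ≥ 1` and let `ρ (x, y) = (-y, x - y)` (an automorphism of `ℤ²` of order three). The toric surface
`X_m` whose rays are the `ρ`-orbits of `(1, 2m)` and `(-1, -m-1)` is a klt Fano surface; its moment
polytope is a hexagon invariant under an automorphism of order three, so it has barycentre `0` and `X_m` is
K-semistable, and `α(X_m) = 1/3 + 1/(6m)`. The product of `X_m` with a power of the projective line is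
K-semistable with the same alpha invariant.
-/

open scoped ENNReal

noncomputable section

namespace Pool.Agent.Results.MP_f277c5_ag.NoDCC

open Pool.Agent.Helper774.KSing

/-- Q1: for every `n ≥ 2` the set `𝒜_n` of the alpha invariants of the K-semistable klt Fano varieties
of dimension `n` contains an infinite strictly decreasing sequence, so it does not satisfy the descending
chain condition. Q2: in dimension `2` there are K-semistable klt Fano varieties with alpha
invariant larger than `1/3 = 1/(n+1)` and arbitrarily close to `1/3`. In fact `𝒜_n` contains all the numbers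
`1/3 + 1/(6m)`, `m ≥ 1`, for every `n ≥ 2`. -/
theorem result :
    (∀ n : ℕ, 2 ≤ n → ∃ a : ℕ → ℝ≥0∞, StrictAnti a ∧ ∀ k, a k ∈ alphaSet n) ∧
    (∀ ε : ℝ, 0 < ε → ∃ a ∈ alphaSet 2, ENNReal.ofReal (1 / 3) < a ∧ a < ENNReal.ofReal (1 / 3 + ε)) ∧
    (∀ n m : ℕ, 2 ≤ n → 1 ≤ m → ENNReal.ofReal (1 / 3 + 1 / (6 * m)) ∈ alphaSet n) := by
  refine ⟨fun n hn => ?_, fun ε hε => ?_, fun n m hn hm => mem_alphaSet n hn m hm⟩
  · refine ⟨fun k => ENNReal.ofReal (1 / 3 + 1 / (6 * ((k + 1 : ℕ) : ℝ))), ?_, fun k =>
      mem_alphaSet n hn (k + 1) (Nat.succ_le_succ (Nat.zero_le k))⟩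
    intro i j hij
    have hij' : (i : ℝ) < j := by exact_mod_cast hij
    rw [ENNReal.ofReal_lt_ofReal_iff (by positivity)]
    have h1 : (0 : ℝ) < 6 * ((i + 1 : ℕ) : ℝ) := by positivity
    have h2 : 6 * ((i + 1 : ℕ) : ℝ) < 6 * ((j + 1 : ℕ) : ℝ) := by
      push_cast
      linarith
    have h3 := one_div_lt_one_div_of_lt h1 h2
    linarith
  · obtain ⟨m, hm⟩ := exists_nat_gt (1 / ε)
    have hm0 : (0 : ℝ) < m := lt_trans (by positivity) hm
    have hm1 : 1 ≤ m := by
      have : 0 < m := by exact_mod_cast hm0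
      omega
    refine ⟨ENNReal.ofReal (1 / 3 + 1 / (6 * m)), mem_alphaSet 2 le_rfl m hm1, ?_, ?_⟩
    · rw [ENNReal.ofReal_lt_ofReal_iff (by positivity)]
      have : (0 : ℝ) < 1 / (6 * m) := by positivity
      linarith
    · rw [ENNReal.ofReal_lt_ofReal_iff (by positivity)]
      have h1 : 1 / (6 * (m : ℝ)) < ε := by
        rw [div_lt_iff₀ (by positivity)]
        rw [div_lt_iff₀ hε] at hm
        nlinarith
      linarith

end Pool.Agent.Results.MP_f277c5_ag.NoDCC
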